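import Mathlib

set_option autoImplicit false

/-! The period of additive cellular automata: powers of `a + b ζ` -/

namespace Run7.h701.CA

open Polynomial Finset

section
variable {p q : ℕ} [Fact p.Prime] {F : Type} [Field F] [CharP F p] [Algebra (ZMod p) F] [DecidableEq F]

lemma am_pow (a : ZMod p) (i : ℕ) : (algebraMap (ZMod p) F a) ^ (p ^ i) = algebraMap (ZMod p) F a := by
  rw [← map_pow, ZMod.pow_card_pow]

lemma frob (a b : ZMod p) (z : F) (i : ℕ) :
    (algebraMap (ZMod p) F a + z * algebraMap (ZMod p) F b) ^ (p ^ i) =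
      algebraMap (ZMod p) F a + z ^ (p ^ i) * algebraMap (ZMod p) F b := by
  rw [add_pow_char_pow, mul_pow, am_pow, am_pow]

lemma zpow_q (hq : (p - 1) ∣ q - 1) (hq1 : 1 ≤ q) (a : ZMod p) : a ^ q = a := by
  obtain ⟨c, hc⟩ := hq
  have e : q = (p - 1) * c + 1 := by omega
  rcases eq_or_ne a 0 with rfl | ha
  · rw [e]
    simp
  · rw [e, pow_succ, pow_mul, ZMod.pow_card_sub_one_eq_one ha, one_pow, one_mul]

/-- the nontrivial roots of unity as powers `z ^ (p ^ i)` -/
lemma img1 (hq : q.Prime) (h3 : orderOf (p : ZMod q) = q - 1) {z : F} (hz : IsPrimitiveRoot z q) :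
    (nthRootsFinset q (1 : F)).erase 1 = (range (q - 1)).image (fun i => z ^ (p ^ i)) := by
  have : Fact q.Prime := ⟨hq⟩
  have hq2 := hq.two_le
  symm
  apply Finset.eq_of_subset_of_card_le
  · intro w hw
    rw [Finset.mem_image] at hw
    obtain ⟨i, hi, rfl⟩ := hw
    rw [Finset.mem_erase]
    constructor
    · intro h
      have h4 := hz.dvd_of_pow_eq_one _ h
      have h5 := hq.dvd_of_dvd_pow h4
      have h6 : (p : ZMod q) = 0 := (ZMod.natCast_eq_zero_iff _ _).2 h5
      rw [h6, orderOf_eq_zero] at h3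
      · omega
      · rw [isOfFinOrder_iff_pow_eq_one]
        rintro ⟨n, hn, h7⟩
        rw [zero_pow hn.ne'] at h7
        exact zero_ne_one h7
    · rw [mem_nthRootsFinset hq.pos, ← pow_mul, mul_comm, pow_mul, hz.pow_eq_one, one_pow]
  · rw [Finset.card_erase_of_mem (by rw [mem_nthRootsFinset hq.pos, one_pow]), hz.card_nthRootsFinset,
      Finset.card_image_of_injOn, Finset.card_range]
    intro i hi j hj hij
    simp only [Finset.coe_range, Set.mem_Iio] at hi hj
    have e : ∀ n : ℕ, z ^ (n % q) = z ^ n := fun n => by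
      have h8 := pow_mod_orderOf z n
      rwa [← hz.eq_orderOf] at h8
    have h4 : p ^ i ≡ p ^ j [MOD q] := by
      refine hz.pow_inj (Nat.mod_lt _ hq.pos) (Nat.mod_lt _ hq.pos) ?_
      rw [e, e]
      exact hij
    have h5 : (p : ZMod q) ^ i = (p : ZMod q) ^ j := by
      have := (ZMod.natCast_eq_natCast_iff _ _ _).2 h4
      push_cast at this
      exact this
    have hp0 : (p : ZMod q) ≠ 0 := by
      intro h6
      rw [h6, orderOf_eq_zero] at h3
      · omega
      · rw [isOfFinOrder_iff_pow_eq_one]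
        rintro ⟨n, hn, h7⟩
        rw [zero_pow hn.ne'] at h7
        exact zero_ne_one h7
    have hu : ((Units.mk0 _ hp0 : (ZMod q)ˣ) : ZMod q) = p := rfl
    have h6 : orderOf (Units.mk0 _ hp0 : (ZMod q)ˣ) = q - 1 := by
      rw [← orderOf_units, hu, h3]
    refine pow_injOn_Iio_orderOf (x := (Units.mk0 _ hp0 : (ZMod q)ˣ)) ?_ ?_ ?_
    · rw [Set.mem_Iio, h6]
      exact hi
    · rw [Set.mem_Iio, h6]
      exact hj
    · apply Units.ext
      simpa using h5

lemma img2 (hq : q.Prime) {z : F} (hz : IsPrimitiveRoot z q) :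
    (nthRootsFinset q (1 : F)).erase 1 = (range (q - 1)).image (fun i => z ^ (i + 1)) := by
  have hq2 := hq.two_le
  symm
  apply Finset.eq_of_subset_of_card_le
  · intro w hw
    rw [Finset.mem_image] at hw
    obtain ⟨i, hi, rfl⟩ := hw
    rw [Finset.mem_range] at hi
    rw [Finset.mem_erase]
    constructor
    · intro h
      have h4 := Nat.le_of_dvd (Nat.succ_pos i) (hz.dvd_of_pow_eq_one _ h)
      omega
    · rw [mem_nthRootsFinset hq.pos, ← pow_mul, mul_comm, pow_mul, hz.pow_eq_one, one_pow]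
  · rw [Finset.card_erase_of_mem (by rw [mem_nthRootsFinset hq.pos, one_pow]), hz.card_nthRootsFinset,
      Finset.card_image_of_injOn, Finset.card_range]
    intro i hi j hj hij
    simp only [Finset.coe_range, Set.mem_Iio] at hi hj
    have := hz.pow_inj (by omega) (by omega) hij
    omega

/-- the product over the orbit: the norm -/
lemma norm_one (hq : q.Prime) (hq1 : Odd q) (h2 : (p - 1) ∣ q - 1) (h3 : orderOf (p : ZMod q) = q - 1) {z : F}
    (hz : IsPrimitiveRoot z q) {a b : ZMod p} (hab : a + b ≠ 0) :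
    ∏ i ∈ range (q - 1), (algebraMap (ZMod p) F a + z ^ (p ^ i) * algebraMap (ZMod p) F b) = 1 := by
  have hinj : Set.InjOn (fun i => z ^ (p ^ i)) (range (q - 1)) := by
    apply Finset.injOn_of_card_image_eq
    rw [← img1 hq h3 hz, Finset.card_erase_of_mem (by rw [mem_nthRootsFinset hq.pos, one_pow]), hz.card_nthRootsFinset,
      Finset.card_range]
  have h4 := hz.pow_add_pow_eq_prod_add_mul (algebraMap (ZMod p) F a) (algebraMap (ZMod p) F b) hq1
  rw [← map_pow, ← map_pow, zpow_q h2 hq.one_le, zpow_q h2 hq.one_le] at h4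
  rw [← Finset.mul_prod_erase _ _ (show (1:F) ∈ nthRootsFinset q (1:F) by rw [mem_nthRootsFinset hq.pos, one_pow]),
    img1 hq h3 hz, Finset.prod_image hinj, one_mul, ← map_add] at h4
  have h5 : algebraMap (ZMod p) F (a + b) ≠ 0 := by
    rw [Ne, FaithfulSMul.algebraMap_eq_zero_iff]
    exact hab
  have h6 : algebraMap (ZMod p) F (a + b) * 1 = algebraMap (ZMod p) F (a + b) *
      ∏ i ∈ range (q - 1), (algebraMap (ZMod p) F a + z ^ (p ^ i) * algebraMap (ZMod p) F b) := by
    rw [mul_one]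
    exact h4
  exact (mul_left_cancel₀ h5 h6).symm

lemma norm_q (hq : q.Prime) (hq1 : Odd q) (h2 : (p - 1) ∣ q - 1) (h3 : orderOf (p : ZMod q) = q - 1) {z : F}
    (hz : IsPrimitiveRoot z q) {b : ZMod p} (hb : b ≠ 0) :
    ∏ i ∈ range (q - 1), (algebraMap (ZMod p) F (-b) + z ^ (p ^ i) * algebraMap (ZMod p) F b) = (q : F) := by
  have hinj : Set.InjOn (fun i => z ^ (p ^ i)) (range (q - 1)) := by
    apply Finset.injOn_of_card_image_eq
    rw [← img1 hq h3 hz, Finset.card_erase_of_mem (by rw [mem_nthRootsFinset hq.pos, one_pow]), hz.card_nthRootsFinset,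
      Finset.card_range]
  have hinj2 : Set.InjOn (fun i => z ^ (i + 1)) (range (q - 1)) := by
    apply Finset.injOn_of_card_image_eq
    rw [← img2 hq hz, Finset.card_erase_of_mem (by rw [mem_nthRootsFinset hq.pos, one_pow]), hz.card_nthRootsFinset,
      Finset.card_range]
  have hev : Even (q - 1) := by
    obtain ⟨k, hk⟩ := hq1
    exact ⟨k, by omega⟩
  have hb1 : (algebraMap (ZMod p) F b) ^ (q - 1) = 1 := by
    obtain ⟨c, hc⟩ := h2
    rw [hc, pow_mul, ← map_pow, ZMod.pow_card_sub_one_eq_one hb, map_one, one_pow]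
  have e1 : ∏ i ∈ range (q - 1), (algebraMap (ZMod p) F (-b) + z ^ (p ^ i) * algebraMap (ZMod p) F b) =
      ∏ w ∈ (nthRootsFinset q (1 : F)).erase 1, (-(algebraMap (ZMod p) F b) * (1 - w)) := by
    rw [img1 hq h3 hz, Finset.prod_image hinj]
    refine Finset.prod_congr rfl fun i _ => ?_
    rw [map_neg]
    ring
  rw [e1, Finset.prod_mul_distrib, Finset.prod_const,
    Finset.card_erase_of_mem (by rw [mem_nthRootsFinset hq.pos, one_pow]), hz.card_nthRootsFinset, hev.neg_pow, hb1,
    one_mul, img2 hq hz, Finset.prod_image hinj2]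
  have hz' : IsPrimitiveRoot z ((q - 1) + 1) := by
    rw [Nat.sub_add_cancel hq.one_le]
    exact hz
  rw [hz'.prod_one_sub_pow_eq_order]
  have := hq.one_le
  rw [Nat.cast_sub this]
  simp

lemma geo (hp : 2 ≤ p) (m : ℕ) : (∑ k ∈ range m, p ^ k) * (p - 1) = p ^ m - 1 := by
  have := Nat.geomSum_eq hp m
  have h2 : (p - 1) ∣ p ^ m - 1 := by simpa using Nat.sub_dvd_pow_sub_pow p 1 m
  rw [this, Nat.div_mul_cancel h2]

/-- `(a + b z) ^ (K + 1) = a + b z` for all `q`-th roots of unity `z` -/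
lemma pw {l : ℕ} (hq : q.Prime) (hq1 : Odd q) (hl : l.Prime) (h1 : l ∣ p - 1) (h2 : (p - 1) ∣ q - 1)
    (h3 : orderOf (p : ZMod q) = q - 1) (h4 : (q : ZMod p) ^ ((p - 1) / l) = 1) {z : F} (hz : z ^ q = 1)
    (a b : ZMod p) :
    (algebraMap (ZMod p) F a + z * algebraMap (ZMod p) F b) ^ ((p ^ (q - 1) - 1) / l + 1) =
      algebraMap (ZMod p) F a + z * algebraMap (ZMod p) F b := by
  have hp := (Fact.out : p.Prime)
  have hp2 := hp.two_le
  set G := ∑ k ∈ range (q - 1), p ^ k with hG
  have hg := geo hp2 (q - 1)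
  rw [← hG] at hg
  have hK : (p ^ (q - 1) - 1) / l = G * ((p - 1) / l) := by
    rw [← hg, Nat.mul_div_assoc _ h1]
  have hlG : l ∣ G := by
    rw [← ZMod.natCast_eq_zero_iff, hG]
    push_cast
    have h5 : (p : ZMod l) = 1 := by
      have h6 : ((p - 1 : ℕ) : ZMod l) = 0 := (ZMod.natCast_eq_zero_iff _ _).2 h1
      rw [Nat.cast_sub (by omega), sub_eq_zero] at h6
      simpa using h6
    rw [h5]
    simp only [one_pow, Finset.sum_const, Finset.card_range, nsmul_eq_mul, mul_one]
    exact (ZMod.natCast_eq_zero_iff _ _).2 (h1.trans h2)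
  by_cases h0 : algebraMap (ZMod p) F a + z * algebraMap (ZMod p) F b = 0
  · rw [h0, pow_succ, mul_zero]
  rw [hK, pow_succ, pow_mul]
  by_cases hz1 : z = 1
  · subst hz1
    rw [one_mul, ← map_add]
    rw [one_mul, ← map_add, FaithfulSMul.algebraMap_eq_zero_iff] at h0
    obtain ⟨c, hc⟩ := hlG
    rw [← pow_mul, hc, mul_assoc, mul_comm c, ← mul_assoc, Nat.mul_div_cancel' h1, pow_mul, ← map_pow,
      ZMod.pow_card_sub_one_eq_one h0, map_one, one_pow, one_mul]
  have hz2 : IsPrimitiveRoot z q := by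
    have : Fact q.Prime := ⟨hq⟩
    have h8 : orderOf z = q := orderOf_eq_prime hz hz1
    have h9 := IsPrimitiveRoot.orderOf z
    rwa [h8] at h9
  have hN : (algebraMap (ZMod p) F a + z * algebraMap (ZMod p) F b) ^ G =
      ∏ i ∈ range (q - 1), (algebraMap (ZMod p) F a + z ^ (p ^ i) * algebraMap (ZMod p) F b) := by
    rw [hG, ← Finset.prod_pow_eq_pow_sum]
    exact Finset.prod_congr rfl fun i _ => frob a b z i
  rw [hN]
  by_cases hab : a + b = 0
  · have ha : a = -b := eq_neg_of_add_eq_zero_left hab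
    have hb : b ≠ 0 := by
      rintro rfl
      rw [neg_zero] at ha
      rw [ha] at h0
      simp at h0
    subst ha
    rw [norm_q hq hq1 h2 h3 hz2 hb]
    have h5 : (q : F) ^ ((p - 1) / l) = 1 := by
      have := congrArg (algebraMap (ZMod p) F) h4
      simpa using this
    rw [h5, one_mul]
  · rw [norm_one hq hq1 h2 h3 hz2 hab, one_pow, one_mul]

end

end Run7.h701.CA
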